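import Mathlib
import Pool.Agent.Q213.JF.D

set_option autoImplicit false

/-!
# Jones families among `n`-inseparable almost disjoint families

`ADF A`: `A` is an almost disjoint family of infinite sets of natural numbers.
`Insep n A`: no `n` pairwise disjoint subfamilies of size `ℵ₁` are separated in the sense printed
in the problem.  `InsepInter n A`: the same for the notion of separation by sets with finite
intersection (the usual notion of multiple gap).  `JonesF A`: the Jones property.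
-/

namespace Pool.Agent.Results.MP_db1bd0_lc.JonesInseparable

open Set Cardinal Pool.Agent.Q213.JF

theorem result :
    -- the implication, for the printed notion of `n`-inseparable
    (∀ n : ℕ, 2 ≤ n → (∃ A : Set (Set ℕ), ¬ A.Countable ∧ ADF A ∧ Insep n A) →
      ∃ A : Set (Set ℕ), ¬ A.Countable ∧ ADF A ∧ Insep n A ∧ JonesF A) ∧
    -- the implication, for the notion with sets of finite intersection
    (∀ n : ℕ, 2 ≤ n → (∃ A : Set (Set ℕ), ¬ A.Countable ∧ ADF A ∧ InsepInter n A) →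
      ∃ A : Set (Set ℕ), ¬ A.Countable ∧ ADF A ∧ InsepInter n A ∧ JonesF A) ∧
    -- if `𝔟 = ℵ₁`, one family does it for all `n`
    ((∃ G : Set (ℕ → ℕ), #G = ℵ₁ ∧ ∀ h : ℕ → ℕ, ∃ g ∈ G, ∀ m, ∃ n, m ≤ n ∧ h n < g n) →
      ∃ A : Set (Set ℕ), #A = ℵ₁ ∧ ADF A ∧ JonesF A ∧
        ∀ n : ℕ, 2 ≤ n → Insep n A ∧ InsepInter n A) ∧
    -- if `𝔟 > ℵ₁`, every almost disjoint family is Jones
    ((∀ G : Set (ℕ → ℕ), #G ≤ ℵ₁ → ∃ h : ℕ → ℕ, ∀ g ∈ G, ∃ m, ∀ n, m ≤ n → g n ≤ h n) →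
      ∀ A : Set (Set ℕ), ADF A → JonesF A) := by
  have hunc : ∀ A : Set (Set ℕ), #A = ℵ₁ → ¬ A.Countable := by
    intro A hA hc
    have h2 := (Cardinal.le_aleph0_iff_set_countable).2 hc
    rw [hA] at h2
    exact absurd h2 (not_le.2 Cardinal.aleph0_lt_aleph_one)
  refine ⟨?_, ?_, ?_, ?_⟩
  · rintro n hn ⟨A, hA1, hA2, hA3⟩
    by_cases hB : BddAll
    · exact ⟨A, hA1, hA2, hA3, jones_of_bddAll hB hA2⟩
    · obtain ⟨A', h1, h2, h3, h4⟩ := case_b hB
      exact ⟨A', hunc A' h1, h2, insep_of_inter hn (h4 n), h3⟩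
  · rintro n hn ⟨A, hA1, hA2, hA3⟩
    by_cases hB : BddAll
    · exact ⟨A, hA1, hA2, hA3, jones_of_bddAll hB hA2⟩
    · obtain ⟨A', h1, h2, h3, h4⟩ := case_b hB
      exact ⟨A', hunc A' h1, h2, h4 n, h3⟩
  · rintro ⟨G, hG, hGu⟩
    have hB : ¬ BddAll := by
      intro hB
      obtain ⟨h, hh⟩ := hB G hG.le
      obtain ⟨g, hg, hgu⟩ := hGu h
      obtain ⟨m, hm⟩ := hh g hg
      obtain ⟨n, hn, hlt⟩ := hgu m
      have := hm n hn
      omega
    obtain ⟨A', h1, h2, h3, h4⟩ := case_b hB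
    exact ⟨A', h1, h2, h3, fun n hn => ⟨insep_of_inter hn (h4 n), h4 n⟩⟩
  · intro hB A hA
    exact jones_of_bddAll hB hA

end Pool.Agent.Results.MP_db1bd0_lc.JonesInseparable
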